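import Pool.Agent.H.MP_488bb9_co.Defs

namespace Pool.Agent.H.MP_488bb9_co

open Classical

variable {V : Type} [PartialOrder V] {c : V → Bool}

theorem mem_ch {S : Finset V} {u y : V} : y ∈ ch S u ↔ y ∈ S ∧ u ⋖ y := by simp [ch]

theorem ess_eq (S : Finset V) (u : V) :
    ess c S u = (if Clean c S u then sg (c u) else 0) + ∑ y ∈ ch S u, ess c S y := by
  rw [ess, Finset.sum_attach (ch S u) (ess c S)]

theorem val_eq (S : Finset V) (u : V) : val c S u =
    if c u then max (1 + ∑ y ∈ ch S u, val c S y) (ess c S u) else min (-1 + ∑ y ∈ ch S u, val c S y) (ess c S u) := by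
  rw [val, Finset.sum_attach (ch S u) (val c S)]

theorem clean_iff {S : Finset V} {u : V} : Clean c S u ↔
    (∀ y ∈ ch S u, Clean c S y) ∧ ∀ y ∈ ch S u, c y = c u → ∀ z ∈ ch S y, c z = c y :=
  ⟨fun h => by cases h with | mk _ h1 h2 => exact ⟨h1, h2⟩, fun h => ⟨_, h.1, h.2⟩⟩

theorem ch_erase (S : Finset V) (l u : V) : ch (S.erase l) u = (ch S u).erase l := by
  ext y; simp [mem_ch, and_assoc]

theorem ch_loc {S : Finset V} {l u : V} (h : ¬ u < l) : ch (S.erase l) u = ch S u := by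
  rw [ch_erase, Finset.erase_eq_of_notMem fun h1 => h (mem_ch.1 h1).2.lt]

theorem Clean.erase {S : Finset V} {u : V} (l : V) (h : Clean c S u) : Clean c (S.erase l) u := by
  induction h with
  | mk u _ h2 ih =>
    refine ⟨_, fun y hy => ?_, fun y hy h3 z hz => ?_⟩
    · rw [ch_erase] at hy; exact ih y (Finset.mem_of_mem_erase hy)
    · rw [ch_erase] at hy hz; exact h2 y (Finset.mem_of_mem_erase hy) h3 z (Finset.mem_of_mem_erase hz)

variable [Finite V]

theorem loc (S : Finset V) (l u : V) : ¬ u < l → (Clean c (S.erase l) u ↔ Clean c S u) ∧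
    ess c (S.erase l) u = ess c S u ∧ val c (S.erase l) u = val c S u := by
  induction u using (wellFounded_gt (α := V)).induction with
  | _ u ih =>
    intro h
    have h1 : ∀ y ∈ ch S u, ¬ y < l := fun y hy h1 => h ((mem_ch.1 hy).2.lt.trans h1)
    have h2 := fun y hy => ih y (mem_ch.1 hy).2.lt (h1 y hy)
    have h3 : Clean c (S.erase l) u ↔ Clean c S u := by
      rw [clean_iff, clean_iff, ch_loc h]
      exact and_congr (forall₂_congr fun y hy => (h2 y hy).1) (forall₂_congr fun y hy => by rw [ch_loc (h1 y hy)])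
    have h4 : ess c (S.erase l) u = ess c S u := by
      rw [ess_eq, ess_eq, ch_loc h, Finset.sum_congr rfl fun y hy => (h2 y hy).2.1]
      simp only [h3]
    refine ⟨h3, h4, ?_⟩
    rw [val_eq, val_eq, ch_loc h, Finset.sum_congr rfl fun y hy => (h2 y hy).2.2, h4]

theorem chain (hF : Forest V) (l : V) : ∀ a b, a ≤ l → b ≤ l → a ≤ b ∨ b ≤ a := by
  induction l using (wellFounded_lt (α := V)).induction with
  | _ l ih =>
    intro a b ha hb
    rcases ha.eq_or_lt with rfl | ha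
    · exact Or.inr hb
    rcases hb.eq_or_lt with rfl | hb
    · exact Or.inl ha.le
    obtain ⟨p, h1, h2⟩ := exists_le_covBy_of_lt ha
    obtain ⟨q, h3, h4⟩ := exists_le_covBy_of_lt hb
    obtain rfl := hF _ _ _ h2 h4
    exact ih p h2.lt a b h1 h3

theorem ch_unique (hF : Forest V) {u y z l : V} (hy : u ⋖ y) (hz : u ⋖ z) (h1 : y ≤ l) (h2 : z ≤ l) : z = y := by
  rcases chain hF l y z h1 h2 with h | h
  · exact (hz.eq_or_eq hy.le h).resolve_left hy.lt.ne' |>.symm
  · exact (hy.eq_or_eq hz.le h).resolve_left hz.lt.ne'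

def Conv (S : Finset V) : Prop := ∀ a ∈ S, ∀ b ∈ S, ∀ x, a ≤ x → x ≤ b → x ∈ S

omit [Finite V] in
theorem Conv.erase {S : Finset V} (h : Conv S) {v : V} (hv : (∀ x ∈ S, ¬ v < x) ∨ ∀ x ∈ S, ¬ x < v) :
    Conv (S.erase v) := by
  intro a ha b hb x h1 h2
  rw [Finset.mem_erase] at *
  refine ⟨?_, h a ha.2 b hb.2 x h1 h2⟩
  rintro rfl
  rcases hv with hv | hv
  · exact hv b hb.2 (lt_of_le_of_ne h2 hb.1.symm)
  · exact hv a ha.2 (lt_of_le_of_ne h1 ha.1)

theorem toward {S : Finset V} (hS : Conv S) {u l : V} (hu : u ∈ S) (hl : l ∈ S) (h : u < l) :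
    ∃ y ∈ ch S u, y ≤ l := by
  obtain ⟨y, h1, h2⟩ := exists_covBy_le_of_lt h
  exact ⟨y, mem_ch.2 ⟨hS u hu l hl y h1.le h2, h1⟩, h2⟩

omit [Finite V] in
theorem sum_step {C : Finset V} {l y : V} (hy : y ∈ C) (hu : ∀ z ∈ C, z ≤ l → z = y) (f f' : V → ℤ)
    (h : ∀ z, ¬ z < l → f' z = f z) :
    ∑ z ∈ C.erase l, f' z = ∑ z ∈ C, f z - f y + if y = l then 0 else f' y := by
  have h1 : ∑ z ∈ C.erase y, f' z = ∑ z ∈ C.erase y, f z := Finset.sum_congr rfl fun z hz => by
    rw [Finset.mem_erase] at hz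
    exact h z fun h2 => hz.1 (hu z hz.2 h2.le)
  have h2 := Finset.add_sum_erase C f hy
  split_ifs with h3
  · subst h3; omega
  · rw [Finset.erase_eq_of_notMem fun h4 => h3 (hu l h4 le_rfl).symm, ← Finset.add_sum_erase C f' hy]
    omega

omit [Finite V] in
theorem ch_max {S : Finset V} {l : V} (hl : ∀ x ∈ S, ¬ l < x) : ch S l = ∅ :=
  Finset.eq_empty_of_forall_notMem fun y hy => hl y (mem_ch.1 hy).1 (mem_ch.1 hy).2.lt

omit [Finite V] in
theorem clean_max {S : Finset V} {l : V} (hl : ∀ x ∈ S, ¬ l < x) : Clean c S l := by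
  rw [clean_iff, ch_max hl]; simp

omit [Finite V] in
theorem ess_max {S : Finset V} {l : V} (hl : ∀ x ∈ S, ¬ l < x) : ess c S l = sg (c l) := by
  rw [ess_eq, ch_max hl, if_pos (clean_max hl)]; simp

omit [Finite V] in
theorem val_max {S : Finset V} {l : V} (hl : ∀ x ∈ S, ¬ l < x) : val c S l = sg (c l) := by
  rw [val_eq, ch_max hl, ess_max hl]
  cases c l <;> simp [sg]

omit [Finite V] in
theorem mono_clean {S : Finset V} {l : V} (hl : ∀ x ∈ S, ¬ l < x) {y : V} (h : Clean c (S.erase l) y)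
    (hc : c y = c l) (h0 : ∀ z ∈ ch (S.erase l) y, c z = c y) : Clean c S y := by
  induction h with
  | mk y h1 h2 ih =>
    have e : ∀ a z, z ∈ ch S a → z ≠ l → z ∈ ch (S.erase l) a := fun a z hz h3 => by
      rw [ch_erase]; exact Finset.mem_erase.2 ⟨h3, hz⟩
    refine ⟨_, fun z hz => ?_, fun z hz h5 t ht => ?_⟩
    · by_cases h5 : z = l
      · subst h5; exact clean_max hl
      · have h6 := e y z hz h5
        exact ih z h6 ((h0 z h6).trans hc) (h2 z h6 (h0 z h6))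
    · by_cases h8 : z = l
      · subst h8; simp [ch_max hl] at ht
      by_cases h9 : t = l
      · rw [h9, h5, hc]
      · exact h2 z (e y z hz h8) h5 t (e z t ht h9)

omit [Finite V] in
theorem unlock {S : Finset V} {l : V} (hl : ∀ x ∈ S, ¬ l < x) {a : V} (h : Clean c (S.erase l) a) (ha : a ∈ S) :
    Clean c S a ∨ ∃ y, y ⋖ l ∧ c y ≠ c l ∧ (∀ z ∈ ch S y, z ≠ l → c z = c y) ∧ Clean c S y ∧
      ∃ x, x ⋖ y ∧ c x = c y := by
  induction h with
  | mk a h1 h2 ih =>
    by_contra hn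
    rw [not_or] at hn
    have e : ∀ a z, z ∈ ch S a → z ≠ l → z ∈ ch (S.erase l) a := fun a z hz h3 => by
      rw [ch_erase]; exact Finset.mem_erase.2 ⟨h3, hz⟩
    have cl : ∀ y ∈ ch S a, Clean c S y := by
      intro y hy
      by_cases h5 : y = l
      · subst h5; exact clean_max hl
      · exact (ih y (e a y hy h5) (mem_ch.1 hy).1).resolve_right hn.2
    refine hn.1 ⟨_, cl, fun y hy h5 z hz => ?_⟩
    by_cases h8 : y = l
    · subst h8; simp [ch_max hl] at hz
    by_cases h10 : z = l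
    · subst h10
      by_contra h11
      exact hn.2 ⟨y, (mem_ch.1 hz).2, fun h => h11 h.symm, fun w hw h12 => h2 y (e a y hy h8) h5 w (e y w hw h12),
        cl y hy, a, (mem_ch.1 hy).2, h5.symm⟩
    · exact h2 y (e a y hy h8) h5 z (e y z hz h10)

omit [Finite V] in
theorem mono_leaf {S : Finset V} {y u : V} (h : Clean c S y) (hy : y ∈ ch S u) (hc : c u = c y)
    (h0 : ∀ z ∈ ch S y, c z = c y) : ∃ l ∈ S, y ≤ l ∧ ch S l = ∅ ∧ c l = c y ∧ ∃ x, x ⋖ l ∧ c x = c l := by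
  induction h generalizing u with
  | mk y h1 h2 ih =>
    rcases (ch S y).eq_empty_or_nonempty with h3 | ⟨z, hz⟩
    · exact ⟨y, (mem_ch.1 hy).1, le_rfl, h3, rfl, u, (mem_ch.1 hy).2, hc⟩
    · obtain ⟨l, h7, h8, h9, h10, h11⟩ := ih z hz hz (h0 z hz).symm (h2 z hz (h0 z hz))
      exact ⟨l, h7, (mem_ch.1 hz).2.le.trans h8, h9, h10.trans (h0 z hz), h11⟩

theorem max_of_ch {S : Finset V} (hS : Conv S) {l : V} (hl : l ∈ S) (h : ch S l = ∅) : ∀ x ∈ S, ¬ l < x := by
  intro x hx h1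
  obtain ⟨y, hy, -⟩ := toward hS hl hx h1
  simp [h] at hy

theorem new_same (hF : Forest V) {S : Finset V} {l u y : V} (hl : ∀ x ∈ S, ¬ l < x) (hy : y ∈ ch S u) (hyl : y ≤ l)
    (hc : c u = c l) (h1 : Clean c (S.erase l) u) (h2 : ¬ Clean c S u) :
    y ≠ l ∧ Clean c (S.erase l) y ∧ ¬ Clean c S y ∧ c y ≠ c l := by
  have e : ∀ a z, z ∈ ch S a → z ≠ l → z ∈ ch (S.erase l) a := fun a z hz h3 => by
    rw [ch_erase]; exact Finset.mem_erase.2 ⟨h3, hz⟩
  rw [clean_iff] at h1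
  have h3 : ¬ Clean c S y := by
    intro h3
    refine h2 ⟨_, fun z hz => ?_, fun z hz h4 t ht => ?_⟩
    · by_cases h4 : z ≤ l
      · rw [ch_unique hF (mem_ch.1 hy).2 (mem_ch.1 hz).2 hyl h4]; exact h3
      · exact (loc S l z fun h5 => h4 h5.le).1.1 (h1.1 z (e u z hz fun h5 => h4 h5.le))
    · by_cases h8 : z = l
      · subst h8; simp [ch_max hl] at ht
      by_cases h9 : t = l
      · rw [h9, h4, hc]
      · exact h1.2 z (e u z hz h8) h4 t (e z t ht h9)
  have h4 : y ≠ l := by rintro rfl; exact h3 (clean_max hl)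
  have h5 := h1.1 y (e u y hy h4)
  exact ⟨h4, h5, h3, fun h6 => h3 (mono_clean hl h5 h6 (h1.2 y (e u y hy h4) (h6.trans hc.symm)))⟩

end Pool.Agent.H.MP_488bb9_co
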