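import Pool.Agent.H.MP_488bb9_co.A

namespace Pool.Agent.H.MP_488bb9_co

open Classical

variable {V : Type} [PartialOrder V] [Finite V] {c : V → Bool}

theorem sg_true : sg true = 1 := rfl
theorem sg_false : sg false = -1 := rfl

theorem drop (hF : Forest V) {S : Finset V} (hS : Conv S) {l : V} (hlS : l ∈ S) (hl : ∀ x ∈ S, ¬ l < x) (u : V) :
    u ∈ S → u ≤ l → ∀ E W, E = (if u = l then 0 else ess c (S.erase l) u) →
      W = (if u = l then 0 else val c (S.erase l) u) →
      sg (c l) * E ≤ sg (c l) * ess c S u - 1 ∧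
      (u ≠ l → Clean c (S.erase l) u → ¬ Clean c S u → c u ≠ c l → sg (c l) * E ≤ sg (c l) * ess c S u - 2) ∧
      sg (c l) * W ≤ sg (c l) * val c S u - 1 ∧
      ((∀ x ∈ S, x < l → Clean c (S.erase l) x → Clean c S x) →
        E = ess c S u - sg (c l) ∧ W = val c S u - sg (c l)) := by
  induction u using (wellFounded_gt (α := V)).induction with
  | _ u ih =>
    intro hu hul E W hE hW
    by_cases h : u = l
    · subst h
      rw [if_pos rfl] at hE hW
      rw [ess_max hl, val_max hl, hE, hW]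
      cases c u <;> simp [sg]
    rw [if_neg h] at hE hW
    have hlt := lt_of_le_of_ne hul h
    obtain ⟨y, hy, hyl⟩ := toward hS hu hlS hlt
    obtain ⟨i1, i2, i3, i4⟩ := ih y (mem_ch.1 hy).2.lt (mem_ch.1 hy).1 hyl _ _ rfl rfl
    have un : ∀ z ∈ ch S u, z ≤ l → z = y := fun z hz => ch_unique hF (mem_ch.1 hy).2 (mem_ch.1 hz).2 hyl
    have s1 := sum_step hy un (ess c S) (ess c (S.erase l)) fun z hz => (loc S l z hz).2.1
    have s2 := sum_step hy un (val c S) (val c (S.erase l)) fun z hz => (loc S l z hz).2.2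
    have e1 := ess_eq (c := c) S u
    have e2 := ess_eq (c := c) (S.erase l) u
    have v1 := val_eq (c := c) S u
    have v2 := val_eq (c := c) (S.erase l) u
    rw [ch_erase, s1, ← hE] at e2
    rw [ch_erase, s2, ← hE, ← hW] at v2
    generalize (if y = l then 0 else ess c (S.erase l) y) = Ey at *
    generalize (if y = l then 0 else val c (S.erase l) y) = Wy at *
    generalize ∑ z ∈ ch S u, ess c S z = se at *
    generalize ∑ z ∈ ch S u, val c S z = sv at *
    have k1 : sg (c l) * E ≤ sg (c l) * ess c S u - 1 ∧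
        (Clean c (S.erase l) u → ¬ Clean c S u → c u ≠ c l → sg (c l) * E ≤ sg (c l) * ess c S u - 2) := by
      by_cases h1 : Clean c S u
      · rw [if_pos h1] at e1
        rw [if_pos (h1.erase l)] at e2
        refine ⟨?_, fun _ h2 => absurd h1 h2⟩
        rcases hc : c l <;> simp only [hc, sg_true, sg_false] at i1 ⊢ <;> omega
      rw [if_neg h1] at e1
      by_cases h2 : Clean c (S.erase l) u
      · rw [if_pos h2] at e2
        by_cases h3 : c u = c l
        · obtain ⟨a1, a2, a3, a4⟩ := new_same hF hl hy hyl h3 h2 h1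
          have i5 := i2 a1 a2 a3 a4
          refine ⟨?_, fun _ _ h4 => absurd h3 h4⟩
          rw [h3] at e2
          rcases hc : c l <;> simp only [hc, sg_true, sg_false] at i5 e2 ⊢ <;> omega
        · rcases hc : c l <;> rcases hd : c u <;> simp only [hc, hd, sg_true, sg_false] at i1 e2 h3 ⊢ <;>
            first | exact absurd trivial h3 | exact ⟨by omega, fun _ _ _ => by omega⟩
      · rw [if_neg h2] at e2
        refine ⟨?_, fun h3 => absurd h3 h2⟩
        rcases hc : c l <;> simp only [hc, sg_true, sg_false] at i1 ⊢ <;> omega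
    refine ⟨k1.1, fun _ => k1.2, ?_, fun hg => ?_⟩
    · have k2 := k1.1
      rcases hc : c l <;> rcases hd : c u <;>
        simp only [hc, hd, sg_true, sg_false, if_true, Bool.false_eq_true, if_false] at i3 k2 v1 v2 ⊢ <;> omega
    · obtain ⟨i5, i6⟩ := i4 hg
      have k2 : E = ess c S u - sg (c l) := by
        by_cases h1 : Clean c S u
        · rw [if_pos h1] at e1
          rw [if_pos (h1.erase l)] at e2
          omega
        · rw [if_neg h1] at e1
          rw [if_neg fun h2 => h1 (hg u hu hlt h2)] at e2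
          omega
      refine ⟨k2, ?_⟩
      rcases hd : c u <;> simp only [hd, if_true, Bool.false_eq_true, if_false] at v1 v2 <;> omega

theorem good_leaf (hF : Forest V) {S : Finset V} (hS : Conv S) {P : Bool} (r : V)
    (hb : ∀ l ∈ S, r ≤ l → c l = P → (∀ x ∈ S, ¬ l < x) → ∃ x ∈ S, x < l ∧ Clean c (S.erase l) x ∧ ¬ Clean c S x)
    (u : V) : u ∈ S → r ≤ u → (c u = P ∧ ch S u = ∅) ∨ (sg P * ess c S u ≤ 0 ∧
      (Clean c S u → c u ≠ P → (∀ z ∈ ch S u, ¬ (c z = P ∧ ch S z = ∅)) → sg P * ess c S u ≤ -1)) := by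
  have un : ∀ l ∈ S, r ≤ l → c l = P → ch S l = ∅ → ∀ y, y ⋖ l → c y ≠ P ∧ (∀ z ∈ ch S y, z ≠ l → c z = c y) ∧
      Clean c S y ∧ ∀ x, x ⋖ y → c x = c y := by
    intro l hl h1 h2 h3 y hy
    have h4 := max_of_ch hS hl h3
    obtain ⟨x, hx, -, h5, h6⟩ := hb l hl h1 h2 h4
    obtain ⟨y', a1, a2, a3, a4, x', a5, a6⟩ := (unlock h4 h5 hx).resolve_left h6
    obtain rfl := hF _ _ _ a1 hy
    exact ⟨h2 ▸ a2, a3, a4, fun x hx => hF _ _ _ a5 hx ▸ a6⟩
  induction u using (wellFounded_gt (α := V)).induction with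
  | _ u ih =>
    intro hu hr
    have i := fun z (hz : z ∈ ch S u) => ih z (mem_ch.1 hz).2.lt (mem_ch.1 hz).1 (hr.trans (mem_ch.1 hz).2.le)
    by_cases h0 : c u = P ∧ ch S u = ∅
    · exact Or.inl h0
    refine Or.inr ?_
    have e1 : sg P * ess c S u = sg P * (if Clean c S u then sg (c u) else 0) + ∑ y ∈ ch S u, sg P * ess c S y := by
      rw [ess_eq, mul_add, Finset.mul_sum]
    have one : ∀ y ∈ ch S u, (∀ z ∈ ch S u, z ≠ y → sg P * ess c S z ≤ 0) →
        ∑ z ∈ ch S u, sg P * ess c S z ≤ sg P * ess c S y := by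
      intro y hy h
      rw [← Finset.add_sum_erase _ _ hy]
      have := Finset.sum_nonpos (s := (ch S u).erase y) (f := fun z => sg P * ess c S z) fun z hz =>
        h z (Finset.mem_of_mem_erase hz) (Finset.ne_of_mem_erase hz)
      omega
    have ne : ∀ b, b ≠ P → sg P * sg b = -1 := by intro b; cases P <;> cases b <;> simp [sg]
    have eq : sg P * sg P = 1 := by cases P <;> simp [sg]
    by_cases h1 : ∃ l ∈ ch S u, c l = P ∧ ch S l = ∅
    · obtain ⟨l, hl, h2, h3⟩ := h1
      obtain ⟨a1, a2, a3, -⟩ := un l (mem_ch.1 hl).1 (hr.trans (mem_ch.1 hl).2.le) h2 h3 u (mem_ch.1 hl).2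
      have h4 := one l hl fun z hz h4 => ((i z hz).resolve_left fun h5 => a1 ((a2 z hz h4).symm.trans h5.1)).1
      rw [ess_max (max_of_ch hS (mem_ch.1 hl).1 h3), h2, eq] at h4
      rw [if_pos a3, ne _ a1] at e1
      exact ⟨by omega, fun _ _ h5 => absurd ⟨h2, h3⟩ (h5 l hl)⟩
    push Not at h1
    have j := fun z hz => (i z hz).resolve_left fun h => (h1 z hz h.1).ne_empty h.2
    have h2 := Finset.sum_nonpos (s := ch S u) (f := fun z => sg P * ess c S z) fun z hz => (j z hz).1
    by_cases h3 : Clean c S u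
    swap
    · rw [if_neg h3] at e1
      exact ⟨by omega, fun h => absurd h h3⟩
    rw [if_pos h3] at e1
    by_cases h4 : c u = P
    swap
    · rw [ne _ h4] at e1
      exact ⟨by omega, fun _ _ _ => by omega⟩
    refine ⟨?_, fun _ h => absurd h4 h⟩
    obtain ⟨z, hz⟩ := Finset.nonempty_iff_ne_empty.2 fun h => h0 ⟨h4, h⟩
    have h5 := (clean_iff.1 h3).1 z hz
    have hrz := hr.trans (mem_ch.1 hz).2.le
    have h6 : c z ≠ P := by
      intro h6
      obtain ⟨l, hl, a1, a2, a3, x, a4, a5⟩ := mono_leaf h5 hz (h4.trans h6.symm)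
        ((clean_iff.1 h3).2 z hz (h6.trans h4.symm))
      exact (un l hl (hrz.trans a1) (a3.trans h6) a2 x a4).1 (a5.trans (a3.trans h6))
    have h7 := (j z hz).2 h5 h6 fun l hl h => h6
      (((un l (mem_ch.1 hl).1 (hrz.trans (mem_ch.1 hl).2.le) h.1 h.2 z (mem_ch.1 hl).2).2.2.2 u
        (mem_ch.1 hz).2).symm.trans h4)
    have h8 := one z hz fun w hw _ => (j w hw).1
    rw [h4, eq] at e1
    omega

noncomputable def tot (c : V → Bool) (S : Finset V) : ℤ := ∑ r ∈ roots S, val c S r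

omit [Finite V] in
theorem mem_roots {S : Finset V} {r : V} : r ∈ roots S ↔ r ∈ S ∧ ∀ x ∈ S, ¬ x < r := by simp [roots]

theorem tot_max (hF : Forest V) {S : Finset V} {l r : V} (hl : ∀ x ∈ S, ¬ l < x)
    (hr : r ∈ roots S) (hrl : r ≤ l) :
    tot c (S.erase l) = tot c S - val c S r + if r = l then 0 else val c (S.erase l) r := by
  have e : roots (S.erase l) = (roots S).erase l := by
    ext x
    simp only [mem_roots, Finset.mem_erase]
    refine ⟨fun ⟨⟨h1, h2⟩, h3⟩ => ⟨h1, h2, fun z hz => ?_⟩, fun ⟨h1, h2, h3⟩ => ⟨⟨h1, h2⟩, fun z hz => h3 z hz.2⟩⟩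
    by_cases h4 : z = l
    · exact h4 ▸ hl x h2
    · exact h3 z ⟨h4, hz⟩
  unfold tot
  rw [e]
  refine sum_step hr (fun z hz h => ?_) _ _ fun z hz => (loc S l z hz).2.2
  rw [mem_roots] at hr hz
  rcases chain hF l r z hrl h with h1 | h1
  · exact (h1.eq_or_lt.resolve_right (hz.2 r hr.1)).symm
  · exact h1.eq_or_lt.resolve_right (hr.2 z hz.1)

theorem tot_min (hF : Forest V) {S : Finset V} (hS : Conv S) {r : V} (hr : r ∈ roots S) :
    tot c (S.erase r) = tot c S - val c S r + ∑ y ∈ ch S r, val c S y := by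
  have hr' := mem_roots.1 hr
  have e : roots (S.erase r) = (roots S).erase r ∪ ch S r := by
    ext x
    simp only [mem_roots, Finset.mem_erase, Finset.mem_union, mem_ch]
    constructor
    · rintro ⟨⟨h1, h2⟩, h3⟩
      by_cases h4 : r < x
      · obtain ⟨y, hy, h5⟩ := toward hS hr'.1 h2 h4
        rw [mem_ch] at hy
        exact Or.inr ⟨h2, (h5.eq_or_lt.resolve_right (h3 y ⟨hy.2.lt.ne', hy.1⟩)) ▸ hy.2⟩
      · refine Or.inl ⟨h1, h2, fun z hz => ?_⟩
        by_cases h5 : z = r
        · exact h5 ▸ h4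
        · exact h3 z ⟨h5, hz⟩
    · rintro (⟨h1, h2, h3⟩ | ⟨h1, h2⟩)
      · exact ⟨⟨h1, h2⟩, fun z hz => h3 z hz.2⟩
      · refine ⟨⟨h2.lt.ne', h1⟩, fun z hz h3 => ?_⟩
        obtain ⟨p, h4, h5⟩ := exists_le_covBy_of_lt h3
        obtain rfl := hF _ _ _ h5 h2
        exact hr'.2 z hz.2 (lt_of_le_of_ne h4 hz.1)
  have d : Disjoint ((roots S).erase r) (ch S r) := Finset.disjoint_left.2 fun x h1 h2 =>
    (mem_roots.1 (Finset.mem_of_mem_erase h1)).2 r hr'.1 (mem_ch.1 h2).2.lt
  unfold tot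
  rw [e, Finset.sum_union d, Finset.sum_congr rfl fun z hz =>
    (loc S r z (hr'.2 z (mem_roots.1 (Finset.mem_of_mem_erase hz)).1)).2.2,
    Finset.sum_congr rfl fun z hz => (loc S r z (hr'.2 z (mem_ch.1 hz).1)).2.2, ← Finset.add_sum_erase _ _ hr]
  omega

theorem ex_root {S : Finset V} {l : V} (hl : l ∈ S) : ∃ r ∈ roots S, r ≤ l := by
  obtain ⟨r, h1, h2⟩ := (wellFounded_lt (α := V)).has_min {x | x ∈ S ∧ x ≤ l} ⟨l, hl, le_rfl⟩
  exact ⟨r, mem_roots.2 ⟨h1.1, fun x hx h => h2 x ⟨hx, h.le.trans h1.2⟩ h⟩, h1.2⟩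

theorem move_le (hF : Forest V) {S : Finset V} (hS : Conv S) {v : V} (hv : v ∈ S)
    (h : (∀ x ∈ S, ¬ v < x) ∨ ∀ x ∈ S, ¬ x < v) : sg (c v) * tot c (S.erase v) ≤ sg (c v) * tot c S - 1 := by
  rcases h with h | h
  · obtain ⟨r, hr, h1⟩ := ex_root hv
    have := (drop (c := c) hF hS hv h r (mem_roots.1 hr).1 h1 _ _ rfl rfl).2.2.1
    rw [tot_max hF h hr h1]
    rcases hc : c v <;> simp only [hc, sg_true, sg_false] at this ⊢ <;> omega
  · rw [tot_min hF hS (mem_roots.2 ⟨hv, h⟩), val_eq]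
    rcases hc : c v <;> simp only [sg_true, sg_false, if_true, Bool.false_eq_true, if_false] <;> omega

theorem move_ex (hF : Forest V) {S : Finset V} (hS : Conv S) {P : Bool} (h : 0 < sg P * tot c S) :
    ∃ v ∈ S, c v = P ∧ ((∀ x ∈ S, ¬ v < x) ∨ ∀ x ∈ S, ¬ x < v) ∧ tot c (S.erase v) = tot c S - sg P := by
  have : ∃ r ∈ roots S, 0 < sg P * val c S r := by
    by_contra h1
    push Not at h1
    have := Finset.sum_nonpos h1
    rw [← Finset.mul_sum] at this
    exact absurd h (not_lt.2 this)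
  obtain ⟨r, hr, h1⟩ := this
  have hr' := mem_roots.1 hr
  by_cases h2 : 0 < sg P * ess c S r
  · by_contra h3
    rcases good_leaf (c := c) (P := P) hF hS r (fun l hl h4 h5 h6 => by
      by_contra h7
      push Not at h7
      have := ((drop (c := c) hF hS hl h6 r hr'.1 h4 _ _ rfl rfl).2.2.2 h7).2
      exact h3 ⟨l, hl, h5, Or.inl h6, by rw [tot_max hF h6 hr h4, this, h5]; omega⟩) r hr'.1 le_rfl with h4 | h4
    · have h5 := max_of_ch hS hr'.1 h4.2
      exact h3 ⟨r, hr'.1, h4.1, Or.inl h5, by rw [tot_max hF h5 hr le_rfl, if_pos rfl, val_max h5, h4.1]; omega⟩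
    · omega
  · have e := val_eq (c := c) S r
    refine ⟨r, hr'.1, ?_, Or.inr hr'.2, ?_⟩
    · rcases P <;> rcases hc : c r <;>
        simp only [hc, sg_true, sg_false, if_true, Bool.false_eq_true, if_false] at e h1 h2 ⊢ <;> omega
    · rw [tot_min hF hS hr]
      rcases P <;> rcases hc : c r <;>
        simp only [hc, sg_true, sg_false, if_true, Bool.false_eq_true, if_false] at e h1 h2 ⊢ <;> omega

theorem win_of (hF : Forest V) (P : Bool) (n : ℕ) : ∀ (S : Finset V) j, Conv S → S.card + j.natAbs < n →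
    (0 ≤ sg P * (tot c S + j) → Win c P (!P) S j) ∧ (0 < sg P * (tot c S + j) → Win c P P S j) := by
  induction n with
  | zero => intro S j _ h; omega
  | succ n ih =>
    intro S j hS hn
    constructor
    · intro h
      refine Win.theirs S j ?_
      rintro S' j' (⟨v, hv, h1, h2, rfl, rfl⟩ | ⟨rfl, h1⟩)
      · have := Finset.card_erase_add_one hv
        refine (ih _ _ (hS.erase h2) (by omega)).2 ?_
        have e1 := move_le (c := c) hF hS hv h2
        rw [h1] at e1
        cases P <;> simp only [sg_true, sg_false, Bool.not_true, Bool.not_false] at e1 h ⊢ <;> omega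
      · refine (ih _ _ hS (by omega)).2 ?_
        cases P <;> simp [sg] at h1 h ⊢ <;> omega
    · intro h
      by_cases hj : 0 < sg P * j
      · refine Win.mine S j S (j - sg P) (Or.inr ⟨rfl, ?_⟩) ((ih _ _ hS ?_).1 ?_)
        · cases P <;> simp [sg] at hj ⊢ <;> omega
        · cases P <;> simp only [sg_true, sg_false] at hj ⊢ <;> omega
        · cases P <;> simp only [sg_true, sg_false] at hj h ⊢ <;> omega
      · obtain ⟨v, hv, h1, h2, h3⟩ := move_ex (c := c) (P := P) hF hS (by rw [mul_add] at h; omega)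
        have := Finset.card_erase_add_one hv
        refine Win.mine S j _ j (Or.inl ⟨v, hv, h1, h2, rfl, rfl⟩) ((ih _ _ (hS.erase h2) (by omega)).1 ?_)
        rw [h3]
        cases P <;> simp only [sg_true, sg_false] at h ⊢ <;> omega

omit [Finite V] in
theorem Win.inv {P t : Bool} {S : Finset V} {j : ℤ} (h : Win c P t S j) :
    (t = P ∧ ∃ S' j', Move c P S j S' j' ∧ Win c P (!P) S' j') ∨
      (t = !P ∧ ∀ S' j', Move c (!P) S j S' j' → Win c P P S' j') := by
  cases h with
  | mine _ _ S' j' h1 h2 => exact Or.inl ⟨rfl, S', j', h1, h2⟩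
  | theirs _ _ h => exact Or.inr ⟨rfl, h⟩

omit [Finite V] in
theorem Win.not_both {P t : Bool} {S : Finset V} {j : ℤ} (h : Win c P t S j) : ¬ Win c (!P) t S j := by
  induction h with
  | mine S j S' j' h1 _ ih =>
    intro h
    rcases h.inv with ⟨h2, -⟩ | ⟨-, h2⟩
    · simp at h2
    · exact ih (h2 S' j' (by simpa using h1))
  | theirs S j _ ih =>
    intro h
    rcases h.inv with ⟨-, S', j', h2, h3⟩ | ⟨h2, -⟩
    · exact ih S' j' h2 (by simpa using h3)
    · simp at h2

theorem main (hF : Forest V) {S : Finset V} (hS : Conv S) (m : ℤ) : HasValue c S m ↔ m = tot c S := by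
  have w := fun P => win_of (c := c) hF P _ S (-m) hS (Nat.lt_succ_self _)
  have a := w true
  have b := w false
  simp only [sg_true, sg_false, Bool.not_true, Bool.not_false] at a b
  constructor
  · rintro ⟨h1, h2⟩
    have h3 : ¬ _ := fun h => (a.2 h).not_both h2
    have h4 : ¬ _ := fun h => (b.2 h).not_both h1
    omega
  · intro h
    exact ⟨a.1 (by omega), b.1 (by omega)⟩

end Pool.Agent.H.MP_488bb9_co
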