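import Mathlib

namespace Pool.Agent.H.MP_488bb9_co

open Classical

variable {V : Type} [PartialOrder V] (c : V → Bool)

/-- forest poset: every element covers at most one element -/
def Forest (V : Type) [PartialOrder V] : Prop := ∀ x y z : V, x ⋖ z → y ⋖ z → x = y

/-- a move of player `P` (`true` = White = Left) in the sum of the min-max-removal game on `S` and the integer `j` -/
def Move (P : Bool) (S : Finset V) (j : ℤ) (S' : Finset V) (j' : ℤ) : Prop :=
  (∃ v ∈ S, c v = P ∧ ((∀ x ∈ S, ¬ v < x) ∨ ∀ x ∈ S, ¬ x < v) ∧ S' = S.erase v ∧ j' = j) ∨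
  (S' = S ∧ (P = true ∧ 0 < j ∧ j' = j - 1 ∨ P = false ∧ j < 0 ∧ j' = j + 1))

/-- `Win P t S j`: player `P` wins that sum under normal play when player `t` is to move -/
inductive Win (P : Bool) : Bool → Finset V → ℤ → Prop
  | mine (S : Finset V) (j : ℤ) (S' : Finset V) (j' : ℤ) : Move c P S j S' j' → Win P (!P) S' j' → Win P P S j
  | theirs (S : Finset V) (j : ℤ) : (∀ S' j', Move c (!P) S j S' j' → Win P P S' j') → Win P (!P) S j

/-- the game on `S` equals the integer `m`: in its sum with `-m` the second player wins -/
def HasValue (S : Finset V) (m : ℤ) : Prop := Win c true false S (-m) ∧ Win c false true S (-m)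

/-- the elements of `S` covering `u` -/
noncomputable def ch (S : Finset V) (u : V) : Finset V := S.filter fun y => u ⋖ y

/-- the tree of elements above `u` (with `u`) contains no blocking triple -/
inductive Clean (S : Finset V) : V → Prop
  | mk (u : V) : (∀ y ∈ ch S u, Clean S y) → (∀ y ∈ ch S u, c y = c u → ∀ z ∈ ch S y, c z = c y) → Clean S u

/-- `1` for white, `-1` for black -/
def sg (b : Bool) : ℤ := if b then 1 else -1

theorem up_lt {S : Finset V} {u y : V} (h : y ∈ ch S u) :
    (S.filter fun x => y < x).card < (S.filter fun x => u < x).card := by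
  rw [ch, Finset.mem_filter] at h
  refine Finset.card_lt_card ⟨fun x hx => ?_, fun h1 => ?_⟩
  · rw [Finset.mem_filter] at hx ⊢
    exact ⟨hx.1, h.2.lt.trans hx.2⟩
  · simpa using h1 (Finset.mem_filter.2 ⟨h.1, h.2.lt⟩)

/-- white minus black over the essential part of the tree above `u` -/
noncomputable def ess (S : Finset V) (u : V) : ℤ :=
  (if Clean c S u then sg (c u) else 0) + ∑ y ∈ (ch S u).attach, ess S y.1
termination_by (S.filter fun x => u < x).card
decreasing_by exact up_lt y.2

/-- the value formula for the tree above `u` -/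
noncomputable def val (S : Finset V) (u : V) : ℤ :=
  if c u then max (1 + ∑ y ∈ (ch S u).attach, val S y.1) (ess c S u)
  else min (-1 + ∑ y ∈ (ch S u).attach, val S y.1) (ess c S u)
termination_by (S.filter fun x => u < x).card
decreasing_by all_goals exact up_lt y.2

/-- the roots: minimal elements of `S` -/
noncomputable def roots (S : Finset V) : Finset V := S.filter fun r => ∀ x ∈ S, ¬ x < r

end Pool.Agent.H.MP_488bb9_co
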